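import Pool.Agent.R999.Brg

/-!
# The Thomas-Fermi interaction energy of neutral atoms is not superadditive in the charges

The proof uses the starting library on Thomas-Fermi theory (existence of the neutral densities,
Teller's theorem with a remainder, and an upper bound of the interaction energy of neutral
molecules which does not depend on the charges).
-/

set_option autoImplicit false

open MeasureTheory Set Filter Topology Metric
open scoped ENNReal

namespace Pool.Agent.Results.MP_f156ce_mp.NotSuperadditive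

/-- Three dimensional Euclidean space. -/
abbrev R3 := EuclideanSpace ℝ (Fin 3)

/-- `ρ ≥ 0` and `ρ ∈ L¹ ∩ L^{5/3}`. -/
structure Density (ρ : R3 → ℝ) : Prop where
  nonneg : ∀ x, 0 ≤ ρ x
  integrable : Integrable ρ
  integrable_rpow : Integrable (fun x => ρ x ^ (5/3 : ℝ))

variable {k : ℕ}

/-- The Thomas-Fermi functional `ξ(ρ)` of the configuration with nuclear charges `z` and nuclear
positions `R`, the nuclear repulsion `U` included. -/
noncomputable def xi (z : Fin k → ℝ) (R : Fin k → R3) (ρ : R3 → ℝ) : ℝ :=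
  3/5 * (∫ x, ρ x ^ (5/3 : ℝ)) - (∫ x, (∑ j, z j / ‖x - R j‖) * ρ x) +
    1/2 * (∫ x, ∫ y, ρ x * ρ y / ‖x - y‖) +
    ∑ i, ∑ j ∈ Finset.univ.filter (fun j => i < j), z i * z j / ‖R i - R j‖

/-- The energies of the densities of total charge `∑ z` (neutral case). -/
def energies (z : Fin k → ℝ) (R : Fin k → R3) : Set ℝ :=
  {e | ∃ ρ : R3 → ℝ, Density ρ ∧ ∫ x, ρ x = ∑ j, z j ∧ xi z R ρ = e}

/-- The neutral Thomas-Fermi energy `e(z)` of a configuration. -/
noncomputable def e (z : Fin k → ℝ) (R : Fin k → R3) : ℝ := sInf (energies z R)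

/-- The neutral Thomas-Fermi energy of an atom of charge `z`. -/
noncomputable def eat (z : ℝ) : ℝ := e (k := 1) (fun _ => z) (fun _ => 0)

/-- The function `e - ẽ` of the charges. -/
noncomputable def f (R : Fin k → R3) (z : Fin k → ℝ) : ℝ := e z R - ∑ j, eat (z j)

/-- Superadditivity on `ℝ_+^k`. -/
def Superadditive (F : (Fin k → ℝ) → ℝ) : Prop :=
  ∀ a b : Fin k → ℝ, (∀ j, 0 ≤ a j) → (∀ j, 0 ≤ b j) → F a + F b ≤ F (a + b)

open Pool.Agent.TH791.Cl Pool.Agent.R999.MinP Pool.Agent.R999.Ex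

lemma UU_lt (z : Fin k → ℝ) (R : Fin k → R3) :
    UU z R = ∑ i, ∑ j ∈ Finset.univ.filter (fun j => i < j), z i * z j / ‖R i - R j‖ := by
  classical
  set F : Fin k → Fin k → ℝ := fun i j => z i * z j / ‖R i - R j‖ with hF
  have hsymm : ∀ i j, F i j = F j i := fun i j => by
    simp only [hF]; rw [norm_sub_rev, mul_comm]
  have hdiag : ∀ i, F i i = 0 := fun i => by simp [hF]
  have h1 : ∀ i, ∑ j, F i j = (∑ j ∈ Finset.univ.filter (fun j => i < j), F i j) +
      ∑ j ∈ Finset.univ.filter (fun j => j < i), F i j := by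
    intro i
    rw [Finset.sum_filter, Finset.sum_filter, ← Finset.sum_add_distrib]
    refine Finset.sum_congr rfl fun j _ => ?_
    rcases lt_trichotomy i j with h | h | h
    · rw [if_pos h, if_neg (not_lt.2 h.le), add_zero]
    · subst h; simp [hdiag]
    · rw [if_neg (not_lt.2 h.le), if_pos h, zero_add]
  have h2 : ∑ i, ∑ j ∈ Finset.univ.filter (fun j => j < i), F i j =
      ∑ i, ∑ j ∈ Finset.univ.filter (fun j => i < j), F i j := by
    simp only [Finset.sum_filter]
    rw [Finset.sum_comm]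
    refine Finset.sum_congr rfl fun i _ => Finset.sum_congr rfl fun j _ => ?_
    split_ifs
    · exact hsymm _ _
    · rfl
  unfold UU
  change 1/2 * ∑ i, ∑ j, F i j = ∑ i, ∑ j ∈ Finset.univ.filter (fun j => i < j), F i j
  rw [Finset.sum_congr rfl fun i _ => h1 i, Finset.sum_add_distrib, h2]
  ring

lemma energies_eq (z : Fin k → ℝ) (R : Fin k → R3) :
    energies z R = {e : ℝ | ∃ σ, Pool.Agent.R999.TFMin.Dens σ ∧ ∫ x, σ x = ∑ j, z j ∧
      Pool.Agent.R999.TFMin.energy 1 (Vn z R) σ + UU z R = e} := by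
  have h1 : ∀ ρ, xi z R ρ = Pool.Agent.R999.TFMin.energy 1 (Vn z R) ρ + UU z R := by
    intro ρ
    rw [UU_lt]
    unfold xi Pool.Agent.R999.TFMin.energy Vn
    ring
  ext e
  constructor
  · rintro ⟨ρ, ⟨a, b, c⟩, d, rfl⟩
    exact ⟨ρ, ⟨a, b, c⟩, d, (h1 ρ).symm⟩
  · rintro ⟨ρ, ⟨a, b, c⟩, d, rfl⟩
    exact ⟨ρ, ⟨a, b, c⟩, d, h1 ρ⟩

lemma least_FE {z : Fin k → ℝ} {R : Fin k → R3} {ρ : R3 → ℝ} (h : TFs 1 z R ρ) :
    IsLeast (energies z R) (FE 1 z R ρ) := by
  rw [energies_eq]; exact least one_pos h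

lemma E_eq {z : Fin k → ℝ} {R : Fin k → R3} {ρ : R3 → ℝ} (h : TFs 1 z R ρ) :
    e z R = FE 1 z R ρ := (least_FE h).csInf_eq

lemma FE_atom {z : Fin k → ℝ} (hz : ∀ j, 0 ≤ z j) {R : Fin k → R3} (m : Fin k) {ρ : R3 → ℝ}
    (h : TFs 1 (zS id z {m}) R ρ) : FE 1 (zS id z {m}) R ρ = eat (z m) := by
  classical
  have hsum : ∀ F : Fin k → ℝ, ∑ p, zS id z {m} p * F p = z m * F m := by
    intro F
    rw [Finset.sum_eq_single m]
    · simp [zS]
    · intro b _ hb; simp [zS, hb]
    · intro h; exact absurd (Finset.mem_univ m) h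
  obtain ⟨ρ0, T0⟩ := tf_ex (ι := Fin 1) one_pos (z := fun _ => z m) (fun _ => hz m)
    (fun _ => (0 : R3))
  have hV : ∀ x, Vn (zS id z {m}) R x = Vn (fun _ : Fin 1 => z m) (fun _ => (0:R3)) (x - R m) := by
    intro x
    have h1 := hsum (fun p => 1 / ‖x - R p‖)
    unfold Vn
    simp only [mul_one_div] at h1
    rw [h1]
    simp
  have hm : ∑ p, zS id z {m} p = ∑ _j : Fin 1, z m := by
    have h1 := hsum (fun _ => 1)
    simpa using h1
  have T1 : TFs 1 (zS id z {m}) R (fun x => ρ0 (x - R m)) := by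
    refine T0.shift hV hm fun x hx j hj => ?_
    have h1 := hx m (by simpa [zS] using hj)
    rw [sub_ne_zero]; exact h1
  rw [h.en_eq one_pos T1]
  unfold eat
  rw [E_eq T0]
  unfold FE
  rw [En_shift T0.md hV]
  congr 1
  unfold UU
  have e1 : ∀ p, ∑ q, zS id z {m} p * zS id z {m} q / ‖R p - R q‖ =
      zS id z {m} p * (z m * (1 / ‖R p - R m‖)) := by
    intro p
    rw [← hsum (fun q => 1 / ‖R p - R q‖), Finset.mul_sum]
    exact Finset.sum_congr rfl fun q _ => by ring
  rw [Finset.sum_congr rfl fun p _ => e1 p, hsum]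
  simp

lemma exists_sep {R : Fin k → R3} (hR : Function.Injective R) :
    ∃ s : ℝ, 0 < s ∧ ∀ a b, a ≠ b → 8 * s ≤ ‖R a - R b‖ := by
  classical
  set T : Finset (Fin k × Fin k) := Finset.univ.filter fun p => p.1 ≠ p.2 with hT
  by_cases hne : T.Nonempty
  · obtain ⟨p, hp, hmin⟩ := Finset.exists_min_image T (fun p => ‖R p.1 - R p.2‖) hne
    rw [hT, Finset.mem_filter] at hp
    have hpos : 0 < ‖R p.1 - R p.2‖ := norm_pos_iff.2 (sub_ne_zero.2 fun h => hp.2 (hR h))
    refine ⟨‖R p.1 - R p.2‖ / 8, by positivity, fun a b hab => ?_⟩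
    have := hmin (a, b) (by rw [hT, Finset.mem_filter]; exact ⟨Finset.mem_univ _, hab⟩)
    linarith
  · refine ⟨1, one_pos, fun a b hab => ?_⟩
    exact absurd ⟨(a, b), by rw [hT, Finset.mem_filter]; exact ⟨Finset.mem_univ _, hab⟩⟩ hne

/-- the family of the Thomas-Fermi densities of the partial configurations -/
lemma family {z : Fin k → ℝ} (hz : ∀ j, 0 ≤ z j) (R : Fin k → R3) :
    ∃ ρ : Finset (Fin k) → R3 → ℝ, (∀ S, TFs 1 (zS id z S) R (ρ S)) ∧
      f R z = FE 1 (zS id z Finset.univ) R (ρ Finset.univ) -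
        ∑ m, FE 1 (zS id z {m}) R (ρ {m}) := by
  choose ρ T using fun S => tf_ex one_pos (zS_nonneg (col := id) hz S) R
  refine ⟨ρ, T, ?_⟩
  have e0 : zS id z Finset.univ = z := by funext p; simp [zS]
  have h1 := T Finset.univ
  unfold f
  rw [Finset.sum_congr rfl fun m _ => FE_atom hz m (T {m})]
  rw [e0] at h1 ⊢
  rw [E_eq h1]

lemma f_pos {z : Fin k → ℝ} (hz : ∀ j, 0 ≤ z j) {R : Fin k → R3} (hR : Function.Injective R)
    {i j : Fin k} (hij : i ≠ j) (hi : 0 < z i) (hj : 0 < z j) : 0 < f R z := by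
  classical
  obtain ⟨ρ, T, hf⟩ := family hz R
  have hRne : ∀ p q : Fin k, 0 < z p → 0 < z q → id p ≠ id q → R p ≠ R q :=
    fun p q _ _ hpq h => hpq (hR h)
  have h1 := all_lo one_pos hz hRne T hij.symm (Finset.univ \ {i, j}) (by simp) (by simp)
  have e1 : insert i (insert j (Finset.univ \ {i, j})) = (Finset.univ : Finset (Fin k)) := by
    ext x
    simp only [Finset.mem_insert, Finset.mem_sdiff, Finset.mem_univ, Finset.mem_singleton,
      true_and, iff_true]
    tauto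
  rw [e1] at h1
  have hzi : 0 < zS id z {i} i := by simpa [zS] using hi
  have hzj : 0 < zS id z {j} j := by simpa [zS] using hj
  obtain ⟨ci, hci, Li⟩ := (T {i}).dens_ge one_pos (zS_nonneg hz _) hzi
  obtain ⟨cj, hcj, Lj⟩ := (T {j}).dens_ge one_pos (zS_nonneg hz _) hzj
  obtain ⟨q, hq⟩ : ∃ q : R3, ‖q‖ = 3 + ‖R i‖ + ‖R j‖ := exists_norm_eq R3 (by positivity)
  set B : ℝ := 4 + 2 * ‖R i‖ + 2 * ‖R j‖ with hB
  have hB0 : 0 < B := by positivity
  set K : ℝ := min ci cj / B ^ 6 with hK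
  have hK0 : 0 < K := by positivity
  have gen : ∀ (a : R3) (c : ℝ) (g : R3 → ℝ), ‖a‖ ≤ ‖R i‖ + ‖R j‖ → 0 < c → min ci cj ≤ c →
      (∀ᵐ x, 1 ≤ ‖x - a‖ → c / ‖x - a‖ ^ 6 ≤ g x) → ∀ᵐ x, x ∈ ball q 1 → K / 1 ^ 6 ≤ g x := by
    intro a c g ha hc hmin hL
    filter_upwards [hL] with x hx hxb
    rw [mem_ball, dist_eq_norm] at hxb
    have n1 : ‖q‖ ≤ ‖x - a‖ + ‖x - q‖ + ‖a‖ := by
      have e : q = (x - a) - (x - q) + a := by abel
      calc ‖q‖ = ‖(x - a) - (x - q) + a‖ := by rw [← e]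
        _ ≤ ‖(x - a) - (x - q)‖ + ‖a‖ := norm_add_le _ _
        _ ≤ _ := by linarith [norm_sub_le (x - a) (x - q)]
    have n2 : ‖x - a‖ ≤ ‖x - q‖ + ‖q‖ + ‖a‖ := by
      have e : x - a = (x - q) + q - a := by abel
      calc ‖x - a‖ = ‖(x - q) + q - a‖ := by rw [← e]
        _ ≤ ‖(x - q) + q‖ + ‖a‖ := norm_sub_le _ _
        _ ≤ _ := by linarith [norm_add_le (x - q) q]
    have n3 : 1 ≤ ‖x - a‖ := by linarith
    have n4 : ‖x - a‖ ≤ B := by rw [hB]; linarith
    have n5 : 0 < ‖x - a‖ := by linarith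
    refine le_trans ?_ (hx n3)
    rw [one_pow, div_one, hK]
    have n6 : ‖x - a‖ ^ 6 ≤ B ^ 6 := pow_le_pow_left₀ n5.le n4 6
    exact div_le_div₀ hc.le hmin (by positivity) n6
  have g1 := gen (R i) ci (ρ {i}) (by linarith [norm_nonneg (R j)]) hci (min_le_left _ _) Li
  have g2 := gen (R j) cj (ρ {j}) (by linarith [norm_nonneg (R i)]) hcj (min_le_right _ _) Lj
  have h5 := gain_lo (T {i}).md (T {j}).md one_pos hK0 q g1 g2
  have hpi := Real.pi_pos
  have h6 : 0 < 4/3 * Real.pi * K ^ (5/3 : ℝ) / 1 ^ 7 := by positivity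
  rw [hf]
  linarith

lemma f_nonneg {z : Fin k → ℝ} (hz : ∀ j, 0 ≤ z j) {R : Fin k → R3} (hR : Function.Injective R) :
    0 ≤ f R z := by
  classical
  by_cases h : ∃ i j, i ≠ j ∧ 0 < z i ∧ 0 < z j
  · obtain ⟨i, j, hij, hi, hj⟩ := h
    exact (f_pos hz hR hij hi hj).le
  · obtain ⟨ρ, T, hf⟩ := family hz R
    -- at most one charge is positive
    by_cases h0 : ∃ i, 0 < z i
    · obtain ⟨i, hi⟩ := h0
      have hzero : ∀ j, j ≠ i → z j = 0 := by
        intro j hj
        by_contra hne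
        exact h ⟨j, i, hj, lt_of_le_of_ne (hz j) (Ne.symm hne), hi⟩
      have e1 : ∀ m, m ≠ i → FE 1 (zS id z {m}) R (ρ {m}) = 0 := by
        intro m hm
        have e2 : zS id z {m} = zS id z ∅ := by
          funext p
          unfold zS
          by_cases hp : p = m
          · subst hp; simp [hzero p hm]
          · simp [hp]
        have h2 := T {m}
        rw [e2] at h2 ⊢
        exact FE_empty one_pos h2
      have e3 : zS id z {i} = zS id z Finset.univ := by
        funext p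
        unfold zS
        by_cases hp : p = i
        · subst hp; simp
        · simp [hp, hzero p hp]
      rw [hf, Finset.sum_eq_single i (fun m _ hm => e1 m hm) (fun h => absurd (Finset.mem_univ i) h)]
      have h3 := T {i}
      rw [e3] at h3
      have h4 := h3.en_eq one_pos (T Finset.univ)
      rw [e3, h4, sub_self]
    · push Not at h0
      have hzero : ∀ j, z j = 0 := fun j => le_antisymm (h0 j) (hz j)
      have e2 : ∀ S, zS id z S = zS id z ∅ := by
        intro S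
        funext p
        unfold zS
        simp [hzero p]
      have e1 : ∀ S, FE 1 (zS id z S) R (ρ S) = 0 := by
        intro S
        have h2 := T S
        rw [e2] at h2 ⊢
        exact FE_empty one_pos h2
      rw [hf, e1, Finset.sum_congr rfl fun m _ => e1 {m}]
      simp

/-- The bound does not depend on the charges. -/
lemma f_bdd {R : Fin k → R3} (hR : Function.Injective R) :
    ∃ C : ℝ, ∀ z : Fin k → ℝ, (∀ j, 0 ≤ z j) → f R z ≤ C := by
  classical
  obtain ⟨s, hs, hsep⟩ := exists_sep hR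
  refine ⟨k * (Cup 1 k k / s ^ 7), fun z hz => ?_⟩
  obtain ⟨ρ, T, hf⟩ := family hz R
  have h1 := all_up one_pos hz T (Y := R) hs (fun p m _ hpm => hsep p m hpm)
    (fun p _ => by simp; positivity) Finset.univ
  rw [Finset.card_univ, Fintype.card_fin] at h1
  rw [hf]
  linarith

/-- **Disproof of Q1, for every configuration of at least two nuclei.**  For all distinct positions
`R` (`k` arbitrary): the infimum defining `e(z)` is attained for all `z ≥ 0`; the function `e - ẽ` is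
bounded on `ℝ_+^k`, with values in some `[0, C]`; it is positive at every `z ≥ 0` with at least two
positive components, and for each such `z` there is `n ≥ 1` with
`(e - ẽ)(n z + z) < (e - ẽ)(n z) + (e - ẽ)(z)`.  In particular `e - ẽ` is superadditive for no
configuration of `k ≥ 2` nuclei. -/
theorem result {k : ℕ} (R : Fin k → R3) (hR : Function.Injective R) :
    (∀ z : Fin k → ℝ, (∀ j, 0 ≤ z j) → IsLeast (energies z R) (e z R)) ∧
    (∃ C : ℝ, ∀ z : Fin k → ℝ, (∀ j, 0 ≤ z j) → 0 ≤ f R z ∧ f R z ≤ C) ∧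
    (∀ z : Fin k → ℝ, (∀ j, 0 ≤ z j) → (∃ i j, i ≠ j ∧ 0 < z i ∧ 0 < z j) →
      0 < f R z ∧ ∃ n : ℕ, 1 ≤ n ∧ f R ((n : ℝ) • z + z) < f R ((n : ℝ) • z) + f R z) ∧
    (2 ≤ k → ¬ Superadditive (f R)) := by
  obtain ⟨C, hC⟩ := f_bdd hR
  have main : ∀ z : Fin k → ℝ, (∀ j, 0 ≤ z j) → (∃ i j, i ≠ j ∧ 0 < z i ∧ 0 < z j) →
      0 < f R z ∧ ∃ n : ℕ, 1 ≤ n ∧ f R ((n : ℝ) • z + z) < f R ((n : ℝ) • z) + f R z := by
    rintro z hz ⟨i, j, hij, hi, hj⟩
    have hp := f_pos hz hR hij hi hj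
    refine ⟨hp, ?_⟩
    by_contra hcon
    push Not at hcon
    have hgrow : ∀ n : ℕ, ((n : ℝ) + 1) * f R z ≤ f R (((n : ℝ) + 1) • z) := by
      intro n
      induction n with
      | zero => simp
      | succ n ih =>
        have h1 := hcon (n + 1) (by omega)
        push_cast at h1 ⊢
        have e1 : ((n : ℝ) + 1) • z + z = ((n : ℝ) + 1 + 1) • z := by
          rw [add_smul ((n : ℝ) + 1) 1 z, one_smul]
        rw [e1] at h1
        linarith
    obtain ⟨n, hn⟩ := exists_nat_gt (C / f R z)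
    have h1 := hgrow n
    have h2 := hC (((n : ℝ) + 1) • z) (fun j => by
      show 0 ≤ ((n : ℝ) + 1) * z j
      have := hz j
      positivity)
    rw [div_lt_iff₀ hp] at hn
    linarith
  refine ⟨?_, ⟨C, fun z hz => ⟨f_nonneg hz hR, hC z hz⟩⟩, main, ?_⟩
  · intro z hz
    obtain ⟨ρ, hρ⟩ := tf_ex one_pos hz R
    rw [E_eq hρ]; exact least_FE hρ
  · intro hk hSA
    have h1 : ∃ i j : Fin k, i ≠ j ∧ 0 < (fun _ => (1:ℝ) : Fin k → ℝ) i ∧
        0 < (fun _ => (1:ℝ) : Fin k → ℝ) j := by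
      refine ⟨⟨0, by omega⟩, ⟨1, by omega⟩, ?_, one_pos, one_pos⟩
      intro h; simp at h
    obtain ⟨-, n, hn1, hn⟩ := main (fun _ => 1) (fun _ => zero_le_one) h1
    have h2 := hSA ((n : ℝ) • fun _ => 1) (fun _ => 1) (fun j => by
      show 0 ≤ (n : ℝ) * 1
      positivity) (fun _ => zero_le_one)
    linarith

end Pool.Agent.Results.MP_f156ce_mp.NotSuperadditive
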